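import Pool.Agent.W872.SV.Stm

set_option autoImplicit false

/-! SV-IND: a map without fixed points on `K` has a quarter of `K` free of its image. -/

namespace Pool.Agent.W691.SV.INDb

theorem aux (n : ℕ) (f : Fin n → Fin n) : ∀ (k : ℕ) (K : Finset (Fin n)), K.card = k →
    (∀ i ∈ K, f i ≠ i) → ∃ U : Finset (Fin n), U ⊆ K ∧ K.card ≤ 4 * U.card ∧ ∀ i ∈ U, f i ∉ U := by
  classical
  intro k
  induction k using Nat.strong_induction_on with
  | _ k ih =>
    intro K hk hf
    rcases K.eq_empty_or_nonempty with h0 | h0
    · subst h0
      exact ⟨∅, by simp, by simp, by simp⟩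
    · have hpos : 0 < K.card := h0.card_pos
      obtain ⟨i, hi, hi2⟩ := Finset.exists_card_fiber_lt_of_card_lt_mul (s := K) (t := K) (f := f)
        (n := 2) (by omega)
      obtain ⟨P, hP⟩ : ∃ P : Finset (Fin n), P = K.filter (fun j => f j = i) := ⟨_, rfl⟩
      have hPc : P.card ≤ 1 := by
        rw [hP]
        omega
      obtain ⟨K', hK'⟩ : ∃ K' : Finset (Fin n), K' = K \ (insert i (insert (f i) P)) := ⟨_, rfl⟩
      have hsub : K' ⊆ K := by
        rw [hK']
        exact Finset.sdiff_subset
      have hlt : K'.card < k := by
        rw [← hk]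
        apply Finset.card_lt_card
        refine ⟨hsub, fun h => ?_⟩
        have := h hi
        rw [hK', Finset.mem_sdiff] at this
        exact this.2 (Finset.mem_insert_self _ _)
      have hcard : K.card ≤ K'.card + 3 := by
        have h1 : K ⊆ K' ∪ (insert i (insert (f i) P)) := by
          intro x hx
          rw [hK', Finset.mem_union, Finset.mem_sdiff]
          by_cases h : x ∈ insert i (insert (f i) P)
          · exact Or.inr h
          · exact Or.inl ⟨hx, h⟩
        have h2 := Finset.card_le_card h1
        have h3 := Finset.card_union_le K' (insert i (insert (f i) P))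
        have h4 := Finset.card_insert_le i (insert (f i) P)
        have h5 := Finset.card_insert_le (f i) P
        omega
      obtain ⟨U, hU1, hU2, hU3⟩ := ih K'.card hlt K' rfl (fun j hj => hf j (hsub hj))
      have hno : ∀ x ∈ U, x ∈ K ∧ x ≠ i ∧ x ≠ f i ∧ f x ≠ i := by
        intro x hx
        have h1 := hU1 hx
        rw [hK', Finset.mem_sdiff, Finset.mem_insert, Finset.mem_insert, hP,
          Finset.mem_filter] at h1
        refine ⟨h1.1, fun h => h1.2 (Or.inl h), fun h => h1.2 (Or.inr (Or.inl h)),
          fun h => h1.2 (Or.inr (Or.inr ⟨h1.1, h⟩))⟩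
      have hiU : i ∉ U := fun h => (hno i h).2.1 rfl
      refine ⟨insert i U, ?_, ?_, ?_⟩
      · intro x hx
        rcases Finset.mem_insert.1 hx with h | h
        · rw [h]
          exact hi
        · exact (hno x h).1
      · rw [Finset.card_insert_of_notMem hiU]
        omega
      · intro x hx hfx
        rcases Finset.mem_insert.1 hx with h | h
        · rw [h] at hfx
          rcases Finset.mem_insert.1 hfx with h' | h'
          · exact hf i hi h'
          · exact (hno _ h').2.2.1 rfl
        · rcases Finset.mem_insert.1 hfx with h' | h'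
          · exact (hno x h).2.2.2 h'
          · exact hU3 x h h'

theorem main : W872.SV.PartIND := fun n K f hf => aux n f K.card K rfl hf

end Pool.Agent.W691.SV.INDb

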